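import Pool.Agent.Lib.MP_391708_nt.XP.Defs
import Pool.Agent.Lib.MP_391708_nt.X.CELAll
import Pool.Agent.Lib.MP_391708_nt.MR.Basic

/-!
# THEOREM X+ (MP_391708): part CEL, uniform in `T`, `P`, `M`

`S4`, `S2`, `RR`, the coefficients `cc`, the sup bound of the model and the pointwise bound, for all `T`, `P`, `M` with
`M4, M2 ≥ N^(1/3)`; frequencies up to `N ^ 2`.  Everything without hypotheses: `ce_cels`, `ce_rrl`, `ce_ksb`, `ce_sup`.
-/

set_option autoImplicit false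

namespace Pool.Agent.Lib.MP391708.XP.CE

open Finset Filter Topology Pool.Agent.Lib.MP391708.MR
open Pool.Agent.Lib.MP391708.X (ChiG hk Dist Fam rgh VP Ix psi ix1 UOK lc On)
open scoped ComplexConjugate

/-- `S4`, `S2` (and the sizes of the cells) -/
def SpecCELS : Prop := ∃ C : ℝ, 0 < C ∧ ∀ ch cw aQ aU : ℝ, 1 ≤ ch → ∀ᶠ N : ℝ in atTop, ∀ T P M : ℝ,
  N ^ (1 / 3 : ℝ) ≤ M → N ^ (1 / 3 : ℝ) ≤ (par N T P M ch cw).M2 →
  ∀ (F : ℝ) (U : Finset Ix), F ≤ N ^ 2 → UOK (Real.log N ^ aQ) F (Real.log N ^ aU) U → ∀ v : ℕ,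
    ∑ i ∈ U, ‖S4 (par N T P M ch cw) i v‖ ^ 2 ≤
      C * ((par N T P M ch cw).M4 / (Real.log N ^ ch * Real.log N)) ^ 2 ∧
    ∑ i ∈ U, ‖S2 (par N T P M ch cw) i v‖ ^ 2 ≤
      C * ((par N T P M ch cw).M2 / (Real.log N ^ ch * Real.log N)) ^ 2

/-- the rough elements of a lattice cell -/
def SpecRRL : Prop := ∃ c C : ℝ, 0 < c ∧ 0 < C ∧ ∀ ch cw : ℝ, 1 ≤ ch → 0 < cw → ∀ᶠ N : ℝ in atTop, ∀ T P M : ℝ, ∀ j : ℕ,
  N ^ (1 / 3 : ℝ) ≤ Real.exp (j / Real.log N ^ ch) →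
    c * (Real.exp (j / Real.log N ^ ch) / (Real.log N ^ ch * Real.log (Real.log N ^ cw))) ≤ RR (par N T P M ch cw) j ∧
    RR (par N T P M ch cw) j ≤ C * (Real.exp (j / Real.log N ^ ch) / (Real.log N ^ ch * Real.log (Real.log N ^ cw)))

/-- the rough elements of a lattice cell, asymptotically -/
def SpecRRA : Prop := ∀ cw : ℝ, 0 < cw → ∃ c : ℝ, 0 < c ∧ c < 1 ∧ ∀ ch : ℝ, 1 ≤ ch → ∀ᶠ N : ℝ in atTop, ∀ T P M : ℝ,
  ∀ j : ℕ, N ^ (1 / 3 : ℝ) ≤ Real.exp (j / Real.log N ^ ch) →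
    |RR (par N T P M ch cw) j - Real.pi * (Real.exp ((j + 1) / Real.log N ^ ch) - Real.exp (j / Real.log N ^ ch)) *
      VP (Real.log N ^ cw)| ≤ Real.exp (j / Real.log N ^ ch) ^ (1 - c)

/-- the coefficients and the sup bound of the model -/
def SpecKSB : Prop := ∃ C : ℝ, 0 < C ∧ ∀ ch cw aQ aU : ℝ, 1 ≤ ch → 0 < cw → ∀ᶠ N : ℝ in atTop, ∀ T P M : ℝ,
  N ^ (1 / 3 : ℝ) ≤ M → N ^ (1 / 3 : ℝ) ≤ (par N T P M ch cw).M2 →
  ∀ (F : ℝ) (U : Finset Ix), F ≤ N ^ 2 → UOK (Real.log N ^ aQ) F (Real.log N ^ aU) U →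
    (∀ v4 v2 : ℕ, ∑ i ∈ U, ‖cc (par N T P M ch cw) i v4 v2‖ ≤
      C * (Real.log (Real.log N ^ cw) / (Real.log N ^ ch * Real.log N ^ 2))) ∧
    (∀ (v4 v2 : ℕ) (z : Gi), ‖kap (par N T P M ch cw) U v4 v2 z‖ ≤
      C * (Real.log (Real.log N ^ cw) / (Real.log N ^ ch * Real.log N ^ 2))) ∧
    ∀ z : Gi, ∑ v4 ∈ I4 (par N T P M ch cw), ∑ v2 ∈ I2 (par N T P M ch cw), ‖kap (par N T P M ch cw) U v4 v2 z‖ ≤
        C * (Real.log (Real.log N ^ cw) / Real.log N ^ 2) ∧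
      ∑ v4 ∈ I4 (par N T P M ch cw), ∑ v2 ∈ I2 (par N T P M ch cw), ‖kap (par N T P M ch cw) U v4 v2 z‖ ≤ 1

/-- the pointwise bound of `eta` and `kap` -/
def SpecSUP : Prop := ∀ ch cw aQ aU : ℝ, 1 ≤ ch → 0 < cw → ∀ᶠ N : ℝ in atTop, ∀ T P M : ℝ,
  N ^ (1 / 3 : ℝ) ≤ M → N ^ (1 / 3 : ℝ) ≤ (par N T P M ch cw).M2 →
  2 * (par N T P M ch cw).M4 < (par N T P M ch cw).M2 →
  ∀ (F : ℝ) (U : Finset Ix), F ≤ N ^ 2 → UOK (Real.log N ^ aQ) F (Real.log N ^ aU) U → ∀ z : Gi,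
    ∑ v4 ∈ I4 (par N T P M ch cw), ∑ v2 ∈ I2 (par N T P M ch cw),
      (‖eta (par N T P M ch cw) v4 v2 z‖ + ‖kap (par N T P M ch cw) U v4 v2 z‖) ≤ 2

namespace CELM

/-- The coefficients. -/
theorem coeff {C c N T P M ch cw : ℝ} (hC : 0 < C) (hc : 0 < c) (U : Finset Ix)
    (hh : 1 ≤ Real.log N ^ ch) (hL : 1 < Real.log N)
    (hw : 0 < Real.log (Real.log N ^ cw)) (hN : Real.exp 2 ≤ N ^ (1 / 3 : ℝ))
    (h4 : N ^ (1 / 3 : ℝ) ≤ (par N T P M ch cw).M4) (h2 : N ^ (1 / 3 : ℝ) ≤ (par N T P M ch cw).M2)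
    (hS : ∀ v : ℕ,
      ∑ i ∈ U, ‖S4 (par N T P M ch cw) i v‖ ^ 2 ≤
        C * ((par N T P M ch cw).M4 / (Real.log N ^ ch * Real.log N)) ^ 2 ∧
      ∑ i ∈ U, ‖S2 (par N T P M ch cw) i v‖ ^ 2 ≤
        C * ((par N T P M ch cw).M2 / (Real.log N ^ ch * Real.log N)) ^ 2)
    (hR : ∀ j : ℕ, N ^ (1 / 3 : ℝ) ≤ Real.exp (j / Real.log N ^ ch) →
      c * (Real.exp (j / Real.log N ^ ch) / (Real.log N ^ ch * Real.log (Real.log N ^ cw))) ≤
        RR (par N T P M ch cw) j) (v4 v2 : ℕ) :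
    ∑ i ∈ U, ‖cc (par N T P M ch cw) i v4 v2‖ ≤
      C * Real.exp 2 / c * (Real.log (Real.log N ^ cw) / (Real.log N ^ ch * Real.log N ^ 2)) := by
  set p := par N T P M ch cw with hp
  set L := Real.log N with hLd
  set h := L ^ ch with hhd
  set lw := Real.log (L ^ cw) with hlw
  have hh0 : 0 < h := by linarith
  have hL0 : 0 < L := by linarith
  have hE : (0 : ℝ) < Real.exp 2 := Real.exp_pos _
  have hN0 : 0 < N ^ (1 / 3 : ℝ) := hE.trans_le hN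
  have hM4 : 0 < p.M4 := hN0.trans_le h4
  have hM2 : 0 < p.M2 := hN0.trans_le h2
  have hRHS : 0 ≤ C * Real.exp 2 / c * (lw / (h * L ^ 2)) := by positivity
  by_cases e4 : cell p.h p.M4 (2 * p.M4) v4 = ∅
  · refine (le_of_eq ?_).trans hRHS
    refine Finset.sum_eq_zero fun i _ => ?_
    unfold cc S4
    rw [e4]
    simp
  by_cases e2 : cell p.h p.M2 (2 * p.M2) v2 = ∅
  · refine (le_of_eq ?_).trans hRHS
    refine Finset.sum_eq_zero fun i _ => ?_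
    unfold cc S2
    rw [e2]
    simp
  obtain ⟨π4, hπ4⟩ := Finset.nonempty_iff_ne_empty.2 e4
  obtain ⟨π2, hπ2⟩ := Finset.nonempty_iff_ne_empty.2 e2
  have g := X.KSBM.exp_ge hh hM4 hM2 (X.KSBM.cell_lt hh0 hM4 hπ4) (X.KSBM.cell_lt hh0 hM2 hπ2)
  have g1 : N ^ (1 / 3 : ℝ) ≤ Real.exp (((v4 + v2 : ℕ) : ℝ) / h) := by
    refine le_trans ?_ g
    rw [le_div_iff₀ hE]
    calc N ^ (1 / 3 : ℝ) * Real.exp 2 ≤ N ^ (1 / 3 : ℝ) * N ^ (1 / 3 : ℝ) :=
          mul_le_mul_of_nonneg_left hN hN0.le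
      _ ≤ p.M4 * p.M2 := mul_le_mul h4 h2 hN0.le hM4.le
  have g2 := hR (v4 + v2) g1
  have g3 : c * (p.M4 * p.M2 / Real.exp 2 / (h * lw)) ≤ RR p (v4 + v2) := by
    refine le_trans ?_ g2
    gcongr
  have hlow : 0 < c * (p.M4 * p.M2 / Real.exp 2 / (h * lw)) := by positivity
  have hRR : 0 < RR p (v4 + v2) := hlow.trans_le g3
  have g4 := X.KSBM.cs U (fun i => ‖S4 p i v4‖) (fun i => ‖S2 p i v2‖) (p.M4 / (h * L)) (p.M2 / (h * L))
    (by positivity) (by positivity) (fun _ _ => norm_nonneg _) (fun _ _ => norm_nonneg _) C hC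
    (hS v4).1 (hS v2).2
  have g5 : ∑ i ∈ U, ‖cc p i v4 v2‖ = (∑ i ∈ U, ‖S4 p i v4‖ * ‖S2 p i v2‖) / RR p (v4 + v2) := by
    rw [Finset.sum_div]
    refine Finset.sum_congr rfl fun i _ => ?_
    unfold cc
    rw [norm_div, norm_mul, Complex.norm_real, Real.norm_of_nonneg hRR.le]
  rw [g5, div_le_iff₀ hRR]
  refine g4.trans ?_
  calc C * (p.M4 / (h * L) * (p.M2 / (h * L)))
      = C * Real.exp 2 / c * (lw / (h * L ^ 2)) * (c * (p.M4 * p.M2 / Real.exp 2 / (h * lw))) := by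
        field_simp
    _ ≤ C * Real.exp 2 / c * (lw / (h * L ^ 2)) * RR p (v4 + v2) :=
        mul_le_mul_of_nonneg_left g3 hRHS

theorem card_VV {h M : ℝ} (hh : 1 ≤ h) (hM : 1 ≤ M) : ((VV h M (2 * M)).card : ℝ) ≤ 3 * h := by
  have hM0 : 0 < M := by linarith
  have l2 : Real.log (2 * M) = Real.log 2 + Real.log M :=
    Real.log_mul (by norm_num) hM0.ne'
  have hl2 : Real.log 2 < 1 := by
    have := Real.log_two_lt_d9
    linarith
  have hl20 : 0 < Real.log 2 := Real.log_pos (by norm_num)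
  have hlM : 0 ≤ Real.log M := Real.log_nonneg hM
  unfold VV
  rw [Nat.card_Icc]
  have a1 : (⌊h * Real.log (2 * M)⌋₊ : ℝ) ≤ h * Real.log (2 * M) :=
    Nat.floor_le (by rw [l2]; positivity)
  have a2 : h * Real.log M < ⌊h * Real.log M⌋₊ + 1 := Nat.lt_floor_add_one _
  have a3 : ⌊h * Real.log M⌋₊ ≤ ⌊h * Real.log (2 * M)⌋₊ := by
    apply Nat.floor_le_floor
    rw [l2]
    apply mul_le_mul_of_nonneg_left _ (by linarith)
    linarith
  rw [Nat.cast_sub (by omega)]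
  push_cast
  have a4 : h * Real.log (2 * M) = h * Real.log 2 + h * Real.log M := by
    rw [l2]
    ring
  have a5 : h * Real.log 2 ≤ h * 1 := mul_le_mul_of_nonneg_left hl2.le (by linarith)
  linarith

theorem kap_zero {p : Par} {U : Finset Ix} {v4 v2 : ℕ} {z : Gi}
    (h : v4 + v2 ≠ ⌊p.h * Real.log (nm z)⌋₊) : kap p U v4 v2 z = 0 := by
  unfold kap
  rw [if_neg]
  rintro ⟨h1, -⟩
  unfold lc at h1
  rw [mem_filter] at h1
  exact h h1.2.symm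

lemma sum_kap {p : Par} {U : Finset Ix} {z : Gi} {B : ℝ} (hB : 0 ≤ B)
    (h : ∀ v4 v2, ‖kap p U v4 v2 z‖ ≤ B) :
    ∑ v4 ∈ I4 p, ∑ v2 ∈ I2 p, ‖kap p U v4 v2 z‖ ≤ ((I4 p).card : ℝ) * B := by
  rw [← nsmul_eq_mul]
  refine Finset.sum_le_card_nsmul _ _ _ fun v4 _ => ?_
  by_cases h0 : v4 ≤ ⌊p.h * Real.log (nm z)⌋₊
  · have h1 : ∀ v2 ∈ I2 p, v2 ≠ ⌊p.h * Real.log (nm z)⌋₊ - v4 → ‖kap p U v4 v2 z‖ = 0 := by
      intro v2 _ hne
      rw [kap_zero (by omega), norm_zero]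
    by_cases h2 : ⌊p.h * Real.log (nm z)⌋₊ - v4 ∈ I2 p
    · rw [Finset.sum_eq_single_of_mem _ h2 h1]
      exact h _ _
    · rw [Finset.sum_eq_zero fun v2 hv => h1 v2 hv fun e => h2 (e ▸ hv)]
      exact hB
  · rw [Finset.sum_eq_zero fun v2 _ => by rw [kap_zero (by omega), norm_zero]]
    exact hB

/-- two pairs of primes with associated products are equal -/
lemma pair_eq {M4 M2 : ℝ} (hM : 2 * M4 < M2) {a b a' b' z : Gi} (ha : a ∈ GP M4 (2 * M4))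
    (hb : b ∈ GP M2 (2 * M2)) (ha' : a' ∈ GP M4 (2 * M4)) (hb' : b' ∈ GP M2 (2 * M2))
    (h : Associated (a * b) z) (h' : Associated (a' * b') z) : a = a' ∧ b = b' := by
  have hab : Associated (a * b) (a' * b') := h.trans h'.symm
  have pa := GP_prime ha
  have pb := GP_prime hb
  have hne : ∀ x y : Gi, x ∈ GP M4 (2 * M4) → y ∈ GP M2 (2 * M2) → ¬ x ∣ y ∧ ¬ y ∣ x := by
    intro x y hx hy
    have m1 := mem_GP.1 hx
    have m2 := mem_GP.1 hy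
    constructor
    · intro hd
      have e := GP_eq_of_dvd hx hy hd
      subst e
      linarith [m1.2.2.2.2.2, m2.2.2.2.2.1]
    · intro hd
      have e := GP_eq_of_dvd hy hx hd
      subst e
      linarith [m1.2.2.2.2.2, m2.2.2.2.2.1]
  have hda : a ∣ a' * b' := (dvd_mul_right a b).trans hab.dvd
  have hdb : b ∣ a' * b' := (dvd_mul_left b a).trans hab.dvd
  constructor
  · rcases pa.dvd_or_dvd hda with hd | hd
    · exact (GP_eq_of_dvd ha ha' hd).symm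
    · exact absurd hd (hne a b' ha hb').1
  · rcases pb.dvd_or_dvd hdb with hd | hd
    · exact absurd hd (hne a' b ha' hb).2
    · exact (GP_eq_of_dvd hb hb' hd).symm

open scoped Classical in
/-- the sum of `eta` over all cells is at most `1` -/
lemma sum_eta {p : Par} (hM : 2 * p.M4 < p.M2) (z : Gi) :
    ∑ v4 ∈ I4 p, ∑ v2 ∈ I2 p, ‖eta p v4 v2 z‖ ≤ 1 := by
  set D : Finset (Gi × Gi) := (GP p.M4 (2 * p.M4) ×ˢ GP p.M2 (2 * p.M2)).filter
    (fun q => Associated (q.1 * q.2) z) with hD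
  have hD1 : D.card ≤ 1 := by
    rw [Finset.card_le_one]
    intro q hq q' hq'
    rw [hD, mem_filter, mem_product] at hq hq'
    obtain ⟨e1, e2⟩ := pair_eq hM hq.1.1 hq.1.2 hq'.1.1 hq'.1.2 hq.2 hq'.2
    exact Prod.ext e1 e2
  have key : ∀ v4 v2 : ℕ, ‖eta p v4 v2 z‖ = ∑ q ∈ D,
      (if v4 = ⌊p.h * Real.log (nm q.1)⌋₊ then (if v2 = ⌊p.h * Real.log (nm q.2)⌋₊ then (1 : ℝ) else 0)
        else 0) := by
    intro v4 v2
    unfold eta
    rw [Complex.norm_natCast]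
    have e1 : (cell p.h p.M4 (2 * p.M4) v4 ×ˢ cell p.h p.M2 (2 * p.M2) v2).filter
        (fun q => Associated (q.1 * q.2) z) = D.filter (fun q => v4 = ⌊p.h * Real.log (nm q.1)⌋₊ ∧
          v2 = ⌊p.h * Real.log (nm q.2)⌋₊) := by
      ext q
      simp only [hD, cell, mem_filter, mem_product]
      tauto
    rw [e1, Finset.card_filter]
    push_cast
    refine Finset.sum_congr rfl fun q _ => ?_
    by_cases h1 : v4 = ⌊p.h * Real.log (nm q.1)⌋₊ <;> by_cases h2 : v2 = ⌊p.h * Real.log (nm q.2)⌋₊ <;>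
      simp [h1, h2]
  have e2 : ∑ v4 ∈ I4 p, ∑ v2 ∈ I2 p, ‖eta p v4 v2 z‖ = ∑ q ∈ D, ∑ v4 ∈ I4 p, ∑ v2 ∈ I2 p,
      (if v4 = ⌊p.h * Real.log (nm q.1)⌋₊ then (if v2 = ⌊p.h * Real.log (nm q.2)⌋₊ then (1 : ℝ) else 0)
        else 0) := by
    rw [Finset.sum_congr rfl fun v4 _ => Finset.sum_congr rfl fun v2 _ => key v4 v2,
      Finset.sum_congr rfl fun v4 _ => Finset.sum_comm, Finset.sum_comm]
  rw [e2]
  have e3 : ∀ q ∈ D, ∑ v4 ∈ I4 p, ∑ v2 ∈ I2 p,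
      (if v4 = ⌊p.h * Real.log (nm q.1)⌋₊ then (if v2 = ⌊p.h * Real.log (nm q.2)⌋₊ then (1 : ℝ) else 0)
        else 0) ≤ 1 := by
    intro q _
    have e4 : ∀ v4 ∈ I4 p, ∑ v2 ∈ I2 p, (if v4 = ⌊p.h * Real.log (nm q.1)⌋₊ then
        (if v2 = ⌊p.h * Real.log (nm q.2)⌋₊ then (1 : ℝ) else 0) else 0) ≤
        if v4 = ⌊p.h * Real.log (nm q.1)⌋₊ then 1 else 0 := by
      intro v4 _
      by_cases h1 : v4 = ⌊p.h * Real.log (nm q.1)⌋₊
      · simp only [if_pos h1]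
        rw [Finset.sum_ite_eq' (I2 p) ⌊p.h * Real.log (nm q.2)⌋₊ (fun _ => (1 : ℝ))]
        split_ifs <;> norm_num
      · simp only [if_neg h1, Finset.sum_const_zero, le_refl]
    refine (Finset.sum_le_sum e4).trans ?_
    rw [Finset.sum_ite_eq' (I4 p) ⌊p.h * Real.log (nm q.1)⌋₊ (fun _ => (1 : ℝ))]
    split_ifs <;> norm_num
  calc ∑ q ∈ D, ∑ v4 ∈ I4 p, ∑ v2 ∈ I2 p,
      (if v4 = ⌊p.h * Real.log (nm q.1)⌋₊ then (if v2 = ⌊p.h * Real.log (nm q.2)⌋₊ then (1 : ℝ) else 0)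
        else 0) ≤ ∑ q ∈ D, (1 : ℝ) := Finset.sum_le_sum e3
    _ = (D.card : ℝ) := by simp
    _ ≤ 1 := by exact_mod_cast hD1

end CELM

open CELM

/-- `S4`, `S2` -/
theorem ce_cels : SpecCELS := by
  obtain ⟨C, hC, h⟩ := X.ce2_celb
  refine ⟨16 * C, by positivity, ?_⟩
  intro ch cw aQ aU hch
  filter_upwards [h ch aQ aU hch] with N hN
  intro T P M hM4 hM2 F U hF hU v
  have a4 := (hN F U hF hU M v hM4).2.1
  have a2 := (hN F U hF hU (par N T P M ch cw).M2 v hM2).2.1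
  constructor
  · refine le_trans a4 ?_
    exact mul_le_mul_of_nonneg_right (by linarith) (sq_nonneg _)
  · have e : ∀ i : Ix, ‖S2 (par N T P M ch cw) i v‖ ^ 2 =
        16 * ‖∑ π ∈ cell (Real.log N ^ ch) (par N T P M ch cw).M2 (2 * (par N T P M ch cw).M2) v,
          psi i π‖ ^ 2 := by
      intro i
      show ‖4 * ∑ π ∈ cell (Real.log N ^ ch) (par N T P M ch cw).M2
        (2 * (par N T P M ch cw).M2) v, psi i π‖ ^ 2 = _
      rw [norm_mul, mul_pow]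
      norm_num
    rw [Finset.sum_congr rfl fun i _ => e i, ← Finset.mul_sum, mul_assoc]
    exact mul_le_mul_of_nonneg_left a2 (by norm_num)

/-- the rough elements of a lattice cell -/
theorem ce_rrl : SpecRRL := by
  obtain ⟨c, C, hc, hC, h⟩ := X.ce_rrl
  refine ⟨c, C, hc, hC, fun ch cw hch hcw => ?_⟩
  filter_upwards [h 0 0 ch cw hch hcw] with N hN
  intro T P M j hj
  exact hN j hj

/-- the rough elements of a lattice cell, asymptotically -/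
theorem ce_rra : SpecRRA := by
  intro cw hcw
  obtain ⟨c, hc, hc1, h⟩ := X.ce_rra cw hcw
  refine ⟨c, hc, hc1, fun ch hch => ?_⟩
  filter_upwards [h 0 0 ch hch] with N hN
  intro T P M j hj
  exact hN j hj

/-- the coefficients and the sup bound of the model -/
theorem ce_ksb : SpecKSB := by
  obtain ⟨C, hC, hS⟩ := ce_cels
  obtain ⟨c, C1, hc, hC1, hR⟩ := ce_rrl
  have hP := X.ce_psi
  have hE : (0 : ℝ) < Real.exp 2 := Real.exp_pos _
  refine ⟨3 * (C * Real.exp 2 / c), by positivity, fun ch cw aQ aU hch hcw => ?_⟩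
  filter_upwards [hS ch cw aQ aU hch, hR ch cw hch hcw,
    X.KSBM.small (3 * (C * Real.exp 2 / c)) cw hcw, Real.tendsto_log_atTop.eventually_gt_atTop 1,
    (tendsto_rpow_atTop (by norm_num : (0 : ℝ) < 1 / 3)).eventually_ge_atTop (Real.exp 2)]
    with N hS hR hs hL hN
  intro T P M h4 h2 F U hF hU
  have hS := hS T P M h4 h2
  have hL0 : 0 < Real.log N := by linarith
  have hh : 1 ≤ Real.log N ^ ch := Real.one_le_rpow hL.le (by linarith)
  have hh0 : 0 < Real.log N ^ ch := by linarith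
  have hw : 0 < Real.log (Real.log N ^ cw) := by
    rw [Real.log_rpow hL0]
    exact mul_pos hcw (Real.log_pos hL)
  have h1 : ∀ v4 v2 : ℕ, ∑ i ∈ U, ‖cc (par N T P M ch cw) i v4 v2‖ ≤
      C * Real.exp 2 / c * (Real.log (Real.log N ^ cw) / (Real.log N ^ ch * Real.log N ^ 2)) :=
    fun v4 v2 => coeff hC hc U hh hL hw hN h4 h2 (hS F U hF hU) (fun j hj => (hR T P M j hj).1) v4 v2
  have hB : 0 ≤ C * Real.exp 2 / c *
      (Real.log (Real.log N ^ cw) / (Real.log N ^ ch * Real.log N ^ 2)) := by positivity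
  have h3 : ∀ (v4 v2 : ℕ) (z : Gi), ‖kap (par N T P M ch cw) U v4 v2 z‖ ≤
      C * Real.exp 2 / c * (Real.log (Real.log N ^ cw) / (Real.log N ^ ch * Real.log N ^ 2)) := by
    intro v4 v2 z
    unfold kap
    split_ifs with hz
    · refine (norm_sum_le _ _).trans ((Finset.sum_le_sum fun i hi => ?_).trans (h1 v4 v2))
      rw [norm_mul, RCLike.norm_conj]
      exact mul_le_of_le_one_right (norm_nonneg _) ((hP _ _ _ U hU i hi).2.1 z)
    · rw [norm_zero]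
      exact hB
  have h5 : ∀ z : Gi, ∑ v4 ∈ I4 (par N T P M ch cw), ∑ v2 ∈ I2 (par N T P M ch cw),
      ‖kap (par N T P M ch cw) U v4 v2 z‖ ≤
      3 * (C * Real.exp 2 / c) * (Real.log (Real.log N ^ cw) / Real.log N ^ 2) := by
    intro z
    refine (sum_kap hB fun v4 v2 => h3 v4 v2 z).trans ?_
    have hM : 1 ≤ (par N T P M ch cw).M4 :=
      le_trans (le_trans (Real.one_le_exp (by norm_num)) hN) h4
    have hcard : ((I4 (par N T P M ch cw)).card : ℝ) ≤ 3 * Real.log N ^ ch := card_VV hh hM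
    refine (mul_le_mul_of_nonneg_right hcard hB).trans (le_of_eq ?_)
    field_simp
  refine ⟨fun v4 v2 => (h1 v4 v2).trans ?_, fun v4 v2 z => (h3 v4 v2 z).trans ?_,
    fun z => ⟨h5 z, (h5 z).trans hs⟩⟩
  all_goals
    refine mul_le_mul_of_nonneg_right ?_ (by positivity)
    have : 0 < C * Real.exp 2 / c := by positivity
    linarith

/-- the pointwise bound -/
theorem ce_sup : SpecSUP := by
  obtain ⟨C, hC, hK⟩ := ce_ksb
  intro ch cw aQ aU hch hcw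
  filter_upwards [hK ch cw aQ aU hch hcw] with N hN
  intro T P M h4 h2 hM F U hF hU z
  obtain ⟨-, -, h3⟩ := hN T P M h4 h2 F U hF hU
  have h5 := (h3 z).2
  have h6 := sum_eta hM z
  have h7 : ∑ v4 ∈ I4 (par N T P M ch cw), ∑ v2 ∈ I2 (par N T P M ch cw),
      (‖eta (par N T P M ch cw) v4 v2 z‖ + ‖kap (par N T P M ch cw) U v4 v2 z‖) =
      ∑ v4 ∈ I4 (par N T P M ch cw), ∑ v2 ∈ I2 (par N T P M ch cw), ‖eta (par N T P M ch cw) v4 v2 z‖ +
      ∑ v4 ∈ I4 (par N T P M ch cw), ∑ v2 ∈ I2 (par N T P M ch cw),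
        ‖kap (par N T P M ch cw) U v4 v2 z‖ := by
    rw [← Finset.sum_add_distrib]
    exact Finset.sum_congr rfl fun v4 _ => Finset.sum_add_distrib
  rw [h7]
  linarith

end Pool.Agent.Lib.MP391708.XP.CE
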