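import Pool.Agent.Lib.MP_391708_nt.XP.Spec
import Pool.Agent.Lib.MP_391708_nt.X.SpecO

/-!
# THEOREM X+ (MP_391708), part O: from VAR and MT to the final statement

Form of a module: file `XP/O/XXX.lean`, `import Pool.Agent.Lib.MP_391708_nt.XP.SpecO`, namespace
`Pool.Agent.Lib.MP391708.XP`, own lemmas in the namespace `XXXM`, `theorem specXXX (hYYY : SpecYYY) .. : SpecXXX` (the
hypotheses are the Specs named after USES, in this order).  `X.YOK`, `X.SpecYSET` (proved: `X/O/YSET.lean`) are used as they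
are.  `ℓ = log N`.
-/

set_option autoImplicit false

namespace Pool.Agent.Lib.MP391708.XP

open Finset Filter Topology Pool.Agent.Lib.MP391708.MR
open Pool.Agent.Lib.MP391708.X (ChiG hk Dist Fam rgh VP Ix psi ix1 UOK lc On cnt PrK YOK)
open Pool.Agent.Lib.MP391708.XL (VS PS)
open scoped ComplexConjugate

/-- the box with the index `(i, j, m)`: `T = 2^i`, `P = 2^j`, `M = 2^m` -/
noncomputable def bp (N ch cw : ℝ) (q : ℕ × ℕ × ℕ) : Par := par N (2 ^ q.1) (2 ^ q.2.1) (2 ^ q.2.2) ch cw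

/-- CSX (200 lines).  Cauchy–Schwarz.  The proof of `X/O/CSX.lean` with the new `Par` (only `p.K`, `p.P`, `p.T` are used). -/
def SpecCSX : Prop := ∀ (r : ℕ) (p : Par) (Y : Finset Gi) (z B : ℝ) (g : Gi → ℂ), 2 ≤ p.P → 0 < p.T → 1 ≤ p.K →
  p.P ^ 2 < p.K → YOK r z p.P Y →
  ∑ b ∈ Ioc ⌊B⌋₊ ⌊2 * B⌋₊, ‖∑ y ∈ Y, sy p y b g‖ ^ 2 ≤ 20 * p.K * Var p B g

/-- CNB (300 lines; helper2).  The sum with `Eta` over all the boxes counts every `n` at most once.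
Proof.  As `X/O/CNTX.lean` for one box.  The primes of the tuple are recovered from `n`: the prime factors of `N(y)` are `≤ R`,
`N(π₃) ∈ (R, P₁]`, `N(π₄) ∈ (P₁, M₁]`, `N(π₂) ∈ (M₁, L₁]`, `N(z₁) > L₁`; the index of the box from the dyadic intervals
which contain `N(π₃)`, `N(π₄)`, `N(y) N(z₁)`. -/
def SpecCNB : Prop := ∀ (k : ℕ) (N ch cw R P₁ M₁ L₁ z : ℝ) (Y : Finset Gi) (b : ℕ) (S : Finset (ℕ × ℕ × ℕ)),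
  4 ≤ k → 3 ≤ N → 1 ≤ R → YOK (k - 4) z R Y → 1 ≤ b →
  (∀ q ∈ S, R ≤ (bp N ch cw q).P ∧ 2 * (bp N ch cw q).P ≤ P₁ ∧ P₁ ≤ (bp N ch cw q).M4 ∧
    2 * (bp N ch cw q).M4 ≤ M₁ ∧ M₁ ≤ (bp N ch cw q).M2 ∧ 2 * (bp N ch cw q).M2 ≤ L₁ ∧ L₁ * R ≤ (bp N ch cw q).K) →
  (∑ q ∈ S, ∑ y ∈ Y, sy (bp N ch cw q) y b (Eta (bp N ch cw q))).re ≤ (cnt k b N : ℝ)

/-- BXC (200 lines).  There are many boxes.
Proof.  `S` = the set of the `(i, j, m)` with `ℓ^cP ≤ 2^j ≤ ℓ^(2 cP)`, `ℓ^(2cP + cT) ≤ 2^i ≤ min(N^δ, B ℓ^(-2cP - cB))`,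
`N^0.35 ≤ 2^m ≤ N^0.45`.  All indices are `≤ 2 ℓ`.  The number of `m` is `≥ 0.1 ℓ/log 2 - 1 ≥ ℓ/10` (`1/log 2 > 1.44`); the number of `i`
is `≥ (min(δ ℓ, log B - (2cP + cB) log ℓ) - (2cP + cT) log ℓ)/log 2 - 1 ≥ (δ/2) log B` if `cB' ≥ 8 (4 cP + cB + cT + 1)/δ` (`log B ≥ cB' log ℓ`,
`log B ≤ ℓ`, `δ ≤ 1`; `ℓ` large); the `j` with `ℓ^cP ≤ 2^j ≤ ℓ^(2cP)`: their number is `≥ cP log ℓ/log 2 - 1 ≥ cP log ℓ`, and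
`1/log(2^j) ≥ 1/(2 cP log ℓ)`, so `∑_j 1/log(2^j) ≥ 1/2`.  The sum over `S` is the product of the three: `c = δ/40`. -/
def SpecBXC : Prop := ∀ δ cP cT cB : ℝ, 0 < δ → δ ≤ 1 → 1 ≤ cP → 0 ≤ cT → 0 ≤ cB → ∃ c cB' : ℝ, 0 < c ∧
  ∀ᶠ N : ℝ in atTop, ∀ B : ℝ, Real.log N ^ cB' ≤ B → B ^ 2 ≤ 2 * N → ∃ S : Finset (ℕ × ℕ × ℕ),
    (∀ q ∈ S, Box δ cP cT cB N (2 ^ q.1) (2 ^ q.2.1) (2 ^ q.2.2) B) ∧ (S.card : ℝ) ≤ Real.log N ^ 4 ∧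
    c * (Real.log N * Real.log B) ≤ ∑ q ∈ S, 1 / Real.log (2 ^ q.2.1)

/-- SSB (250 lines).  The ratio of the sieve products.
Proof.  `VS b (PS w) = ∏_{p ∈ PS w} (1 - gb b p)`, `VP w = ∏_{π ∈ PI w} (1 - 1/N(π))`.  The elements of `PI w` are `1 + i`, two elements of
norm `p` for every `p ≡ 1 mod 4`, `p ≤ w`, and `q ≡ 3 mod 4` with `q² ≤ w` (norm `q²`).  `gb b 2 = 1/2`; for `p ≡ 1`: `gb b p = 2/p` if
`p ∤ b` (`n² ≡ -b²` has two solutions), `1/p` if `p ∣ b`; for `q ≡ 3`: `0` if `q ∤ b`, `1/q` if `q ∣ b`.  (See `X/GBB.lean`, `X/VPL.lean`.)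
So `VS/VP = ∏_{p ≡ 1, p ∤ b, p ≤ w} (1 - 2/p)/(1 - 1/p)² · ∏_{p ≡ 1, p ∣ b, p ≤ w} (1 - 1/p)⁻¹ · ∏_{q ≡ 3, q² ≤ w} (1 - gb)/(1 - 1/q²)`; the
first product is `∏ (1 - 1/(p - 1)²) ≥ c₁ > 0`, the third one `≥ ∏_{q ∣ b, q ≡ 3} (1 - 1/q)`.  In `gB b` the primes `p ∣ b`, `p ≡ 1`, `p > w`
contribute at most `exp(∑ 2/p) ≤ exp(2 (log b/log w)/w) ≤ e²` (at most `log b/log w` of them). -/
def SpecSSB : Prop := ∃ c : ℝ, 0 < c ∧ ∀ (b : ℕ) (w : ℝ), 1 ≤ b → 3 ≤ w → Real.log b ≤ w →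
  0 < VP w ∧ VP w ≤ 1 ∧ c * gB b ≤ VS b (PS w) / VP w

/-- ONE (350 lines).  USES VAR, MT, X.SpecYSET, CNB, CSX, BXC, SSB, XL.SpecLSM (only the last clause (E)).
Proof.  Given `k ≥ 4`, `A`.  VAR with `A + 16`: `cw aU aQ aF ch0 δ0`.  MT (`c₀` absolute): `ch0' δ0'`.  `ch` = the larger `ch0`, `δ` = the least of `δ0`, `δ0'`, `1/100`.
YSET with `r = k - 4`, `a = max cw aQ`: `A'`.  `cP` larger than the two `cP0`, `2 A' + 2`; `cT ≥` the two `cT0`, `10`; `cB ≥` the two `cB0`.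
BXC for `δ cP cT cB`: `c₁`, `cB'`.  Let `N` be large, `B` with `ℓ^cB' ≤ B`, `B² ≤ 2N`, `S` from BXC, `Y` from YSET (`x = ℓ`, norms `≤ ℓ^A' ≤ ℓ^(cP/2)`).
For `q ∈ S` let `U_q` be from VAR, `D_q(b) = ∑_y sy(Eta - Kap U_q)`.  CSX and VAR: `∑_b ‖D_q(b)‖² ≤ 20 K ℓ^(-A-16) B K T² = 20 ℓ^(-A-16) B N²`.
MT for every `y ∈ Y` (`y` is primitive, its Gaussian primes have norm `> ℓ^a`), `∑_y 1/N(y) ≥ 1`: `Re ∑_y sy(Kap U_q) ≥ m_q := c₀ (VS/VP) N/(ℓ³ log P_q)`.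
CNB with `R = ℓ^(cP/2)`, `P₁ = N^0.1`, `M₁ = N^0.5`, `L₁ = N^0.9` (`P ≤ ℓ^(2cP)`, `M2 = N T/(16 P M)` is between `N^0.54` and `N^0.67`, `K = N/T ≥ N^0.99`).
If `‖D_q(b)‖ ≤ m_q/2` for all `q ∈ S`, then `cnt ≥ ∑_q m_q/2 ≥ (c₀/2)(VS/VP)(N/ℓ³) c₁ ℓ log B ≥ c gB(b) N log B/ℓ²` (SSB with `w = ℓ^cw ≥ ℓ ≥ log b`).
Otherwise some `‖D_q(b)‖ > m_q/2 ≥ N/ℓ⁵` (`VS/VP ≥ VS ≥ c/log(w+1)^4`, `log P ≤ 2 cP log ℓ`): the number of such `b` is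
`≤ #S · 20 ℓ^(-A-16) B N²/(N ℓ^(-5))² ≤ 20 ℓ^(-A-2) B ≤ B ℓ^(-A)`. -/
def SpecONEstmt : Prop := SpecVAR → SpecMT → X.SpecYSET → SpecCNB → SpecCSX → SpecBXC → SpecSSB → XL.SpecLSM → SpecONE

/-- H1C (200 lines).  The constant for `b = 1`.
Proof.  `(-1 | w) = χ(w)`, the nonprincipal character modulo `4`.  `∑_{w ≤ X} χ(w)/w` converges: partial summation from
`|∑_{w ≤ X, w prime} χ(w) log w| ≤ C X/(log X)²` (the prime number theorem in progressions modulo 4: `QPA.SpecPNTAP` or `SW`), and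
`log(1 - χ(w)/(w-1)) = -χ(w)/w + O(1/w²)`; every factor is positive (`w ≥ 3`). -/
def SpecH1C : Prop := ∃ h : ℝ, 0 < h ∧ IsConst 1 h

/-- HGB (150 lines).  USES H1C.  The constant for `b`.
Proof.  `(-b² | w) = (-1 | w)` for `w ∤ b`, `0` for `w ∣ b`.  So for `X ≥ b` the partial product for `b` is the one for `1` divided by
`∏_{w ∣ b, w odd} (1 - χ(w)/(w-1))`, and `(1 - 1/(w-1))⁻¹ = (w/(w-1)) (1 + 1/(w(w-2)))` for `w ≡ 1 mod 4` (`w ≥ 5`),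
`(1 + 1/(w-1))⁻¹ = (w-1)/w` for `w ≡ 3`.  `∏ (1 + 1/(w(w-2))) ≤ exp(∑ 1/(w(w-2))) ≤ C`. -/
def SpecHGB : Prop := ∃ C : ℝ, 0 < C ∧ ∀ b : ℕ, 1 ≤ b → ∃ h : ℝ, 0 < h ∧ IsConst b h ∧ h ≤ C * gB b

/-- UNP (300 lines; helper2).  USES ONE, HGB.  The union over the lengths and over `k` (as `X/UN.lean`). -/
def SpecUNP : Prop := SpecONE → SpecHGB → MainXP

end Pool.Agent.Lib.MP391708.XP
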