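import Pool.Agent.Lib.MP_391708_nt.XP.Defs
import Pool.Agent.Lib.MP_391708_nt.X.Spec
import Pool.Agent.Lib.MP_391708_nt.X.SpecLS2

/-!
# THEOREM X+ (MP_391708): the interface between the parts

All statements are uniform in the boxes `(T, P, M)`, see `Box` in `XP/Defs.lean`.
-/

set_option autoImplicit false

namespace Pool.Agent.Lib.MP391708.XP

open Finset Filter Topology Pool.Agent.Lib.MP391708.MR
open Pool.Agent.Lib.MP391708.X (ChiG hk Dist Fam rgh VP Ix psi ix1 UOK lc On cnt PrK)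
open Pool.Agent.Lib.MP391708.XL (VS PS)
open scoped ComplexConjugate

/-- VAR: the variance is small, for a suitable set `U` of Hecke characters. -/
def SpecVAR : Prop := ∀ A : ℝ, 0 < A → ∃ cw aU aQ aF ch0 : ℝ, 1 ≤ cw ∧ 2 * aQ ≤ cw ∧ 1 ≤ aU ∧ 1 ≤ aQ ∧ 1 ≤ aF ∧ 1 ≤ ch0 ∧
  ∃ δ0 : ℝ, 0 < δ0 ∧ ∀ ch : ℝ, ch0 ≤ ch → ∀ δ : ℝ, 0 < δ → δ ≤ δ0 →
  ∃ cP0 : ℝ, ∀ cP : ℝ, cP0 ≤ cP → ∃ cT0 : ℝ, ∀ cT : ℝ, cT0 ≤ cT → ∃ cB0 : ℝ, ∀ cB : ℝ, cB0 ≤ cB →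
  ∀ᶠ N : ℝ in atTop, ∀ T P M B : ℝ, Box δ cP cT cB N T P M B →
  ∃ U : Finset Ix, UOK (Real.log N ^ aQ) (Real.log N ^ aF * (N / B)) (Real.log N ^ aU) U ∧
    Var (par N T P M ch cw) B (fun z => Eta (par N T P M ch cw) z - Kap (par N T P M ch cw) U z) ≤
      Real.log N ^ (-A) * (B * (par N T P M ch cw).K * (par N T P M ch cw).T ^ 2)

/-- MT: the main term, for every admissible set `U` and every `b`; `c` is absolute. -/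
def SpecMT : Prop := ∃ c : ℝ, 0 < c ∧ ∀ cw aU aQ aF : ℝ, 1 ≤ cw → 2 * aQ ≤ cw → 1 ≤ aU → 1 ≤ aQ → 1 ≤ aF →
  ∃ ch0 δ0 : ℝ, 0 < δ0 ∧ ∀ ch : ℝ, ch0 ≤ ch → ∀ δ : ℝ, 0 < δ → δ ≤ δ0 →
  ∃ cP0 : ℝ, ∀ cP : ℝ, cP0 ≤ cP → ∃ cT0 : ℝ, ∀ cT : ℝ, cT0 ≤ cT → ∃ cB0 : ℝ, ∀ cB : ℝ, cB0 ≤ cB →
  ∀ᶠ N : ℝ in atTop, ∀ T P M B : ℝ, Box δ cP cT cB N T P M B →
  ∀ U : Finset Ix, UOK (Real.log N ^ aQ) (Real.log N ^ aF * (N / B)) (Real.log N ^ aU) U →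
  ∀ b : ℕ, B < b → (b : ℝ) ≤ 2 * B →
  ∀ y : Gi, prim y → (nm y : ℝ) ≤ Real.log N ^ (cP / 2) →
    (∀ π : Gi, Prime π → π ∣ y → Real.log N ^ cw < (nm π : ℝ) ∧ Real.log N ^ aQ < (nm π : ℝ)) →
    c * (VS b (PS (Real.log N ^ cw)) / VP (Real.log N ^ cw)) * (N / (Real.log N ^ 3 * Real.log P * nm y)) ≤
      (sy (par N T P M ch cw) y b (Kap (par N T P M ch cw) U)).re

/-- the arithmetic factor of `b`: the constant of the problem for `a = b²` is between two multiples of it -/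
noncomputable def gB (b : ℕ) : ℝ :=
  (∏ p ∈ b.primeFactors.filter (fun p => p % 4 = 1), ((p : ℝ) / ((p : ℝ) - 1))) *
    ∏ p ∈ b.primeFactors.filter (fun p => p % 4 = 3), (((p : ℝ) - 1) / (p : ℝ))

open scoped Classical in
/-- ONE: one scale (from VAR, MT).  For each `k` and `A` there are `c`, `cB`. -/
def SpecONE : Prop := ∀ k : ℕ, 4 ≤ k → ∀ A : ℝ, 0 < A → ∃ c cB : ℝ, 0 < c ∧ ∀ᶠ N : ℝ in atTop, ∀ B : ℝ,
  Real.log N ^ cB ≤ B → B ^ 2 ≤ 2 * N →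
    (((Ioc ⌊B⌋₊ ⌊2 * B⌋₊).filter
      (fun b => (cnt k b N : ℝ) < c * gB b * (N * Real.log B / Real.log N ^ 2))).card : ℝ) ≤
      B * Real.log N ^ (-A)

/-- `h` is the constant of the problem for `a = b²` -/
def IsConst (b : ℕ) (h : ℝ) : Prop :=
  Tendsto (fun X : ℕ => ∏ w ∈ (range (X + 1)).filter (fun w => Nat.Prime w ∧ w ≠ 2),
    (1 - (jacobiSym (-((b : ℤ) ^ 2)) w : ℝ) / ((w : ℝ) - 1))) atTop (𝓝 h)

open scoped Classical in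
/-- The number of the elements `b` of `E` with `1 ≤ b ≤ x`. -/
noncomputable def count (E : Set ℕ) (x : ℕ) : ℕ := ((Icc 1 x).filter (fun b => b ∈ E)).card

/-- The number of the `1 ≤ n ≤ N` such that `n ^ 2 + b ^ 2` is a product of exactly `k` different primes. -/
def Q (k b N : ℕ) : ℕ :=
  ((Icc 1 N).filter (fun n : ℕ => Squarefree (n ^ 2 + b ^ 2) ∧ (n ^ 2 + b ^ 2).primeFactors.card = k)).card

/-- THEOREM X+ -/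
def MainXP : Prop := ∀ A : ℕ, ∃ E : Set ℕ,
  (∀ᶠ x : ℕ in atTop, (count E x : ℝ) ≤ x / (Real.log x) ^ A) ∧
  ∀ k : ℕ, 4 ≤ k → ∃ c : ℝ, 0 < c ∧ ∃ b₀ : ℕ, ∀ b : ℕ, b₀ ≤ b → b ∉ E → ∃ h : ℝ, 0 < h ∧ IsConst b h ∧
    ∀ N : ℕ, b ^ 2 ≤ N → (N : ℝ) ≤ Real.exp ((b : ℝ) ^ c) →
      c * h * (N * Real.log b / (Real.log N) ^ 2) ≤ Q k b N

end Pool.Agent.Lib.MP391708.XP
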