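import Pool.Agent.Lib.MP_391708_nt.XP.Final0
import Pool.Agent.Lib.MP_391708_nt.XP.U.FIN

/-!
# THEOREM X+ (MP_391708)
-/

set_option autoImplicit false

namespace Pool.Agent.Lib.MP391708.XP

/-- THEOREM X+ -/
theorem mainXP : MainXP := mainXPOf XPU.specFIN

end Pool.Agent.Lib.MP391708.XP
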