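import Pool.Agent.Lib.MP_391708_nt.X.VM
import Pool.Agent.Lib.MP_391708_nt.X.PH.Main
import Pool.Agent.Lib.MP_391708_nt.X.O.YSET
import Pool.Agent.Lib.MP_391708_nt.X.U.BRG
import Pool.Agent.Lib.MP_391708_nt.X.U.CND1
import Pool.Agent.Lib.MP_391708_nt.X.U.NCD
import Pool.Agent.Lib.MP_391708_nt.XP.MT.Main
import Pool.Agent.Lib.MP_391708_nt.XP.U.LVX
import Pool.Agent.Lib.MP_391708_nt.XP.U.HM2
import Pool.Agent.Lib.MP_391708_nt.XP.U.ATY
import Pool.Agent.Lib.MP_391708_nt.XP.U.RGS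
import Pool.Agent.Lib.MP_391708_nt.XP.U.HJS
import Pool.Agent.Lib.MP_391708_nt.XP.U.ETH
import Pool.Agent.Lib.MP_391708_nt.XP.U.HTS
import Pool.Agent.Lib.MP_391708_nt.XP.U.HTA
import Pool.Agent.Lib.MP_391708_nt.XP.U.PRC
import Pool.Agent.Lib.MP_391708_nt.XP.U.LNS
import Pool.Agent.Lib.MP_391708_nt.XP.U.SUP
import Pool.Agent.Lib.MP_391708_nt.XP.U.USET
import Pool.Agent.Lib.MP_391708_nt.XP.O.CNB
import Pool.Agent.Lib.MP_391708_nt.XP.O.CSX
import Pool.Agent.Lib.MP_391708_nt.XP.O.BXC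
import Pool.Agent.Lib.MP_391708_nt.XP.O.SSB
import Pool.Agent.Lib.MP_391708_nt.XP.O.ONE
import Pool.Agent.Lib.MP_391708_nt.XP.O.H1C
import Pool.Agent.Lib.MP_391708_nt.XP.O.HGB
import Pool.Agent.Lib.MP_391708_nt.XP.O.UNP

/-!
# THEOREM X+ (MP_391708): assembly of everything except FIN
-/

set_option autoImplicit false

namespace Pool.Agent.Lib.MP391708.XP

open Pool.Agent.Lib.MP391708

theorem xp_uset : XPU.SpecUSET := XPU.specUSET XU.specBRG XU.specCON (XPU.specLVX XU.specBRG)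
theorem xp_hts : XPU.SpecHTS := XPU.specHTS XPU.specRGS XPU.specHJS XPU.specETH
theorem xp_hta : XPU.SpecHTA := XPU.specHTA XPU.specRGS XU.specNCD XPU.specHJS XPU.specETH XPU.specSUP
theorem xp_prc : XPU.SpecPRC := XPU.specPRC XPU.specHJS XPU.specSUP

/-- the variance, uniform in the boxes -/
theorem xp_varOf (h : XPU.SpecFIN) : SpecVAR := h XV.vm_var XV.vm_phi XU.specBRG (XPU.specHM2 XU.specBRG)
  (XPU.specATY XV.vm_mot) XPU.specHJS XPU.specSUP xp_hts xp_hta xp_prc (XPU.specLNS XPU.specHJS) xp_uset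

/-- the main term, uniform in the boxes -/
theorem xp_mt : SpecMT := XPM.mtOf X.PH.mPHX

/-- one scale -/
theorem xp_oneOf (h : XPU.SpecFIN) : SpecONE :=
  specONE (xp_varOf h) xp_mt (X.specYSET MR.specPG) specCNB specCSX specBXC specSSB XL.ls_lsm

/-- THEOREM X+ from FIN -/
theorem mainXPOf (h : XPU.SpecFIN) : MainXP := specUNP (xp_oneOf h) (specHGB specH1C)

end Pool.Agent.Lib.MP391708.XP
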