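import Pool.Agent.Lib.MP_391708_nt.XP.Spec
import Pool.Agent.Lib.MP_391708_nt.X.SpecLS2
import Pool.Agent.Lib.MP_391708_nt.X.SpecHML
import Pool.Agent.Lib.MP_391708_nt.X.PH.SpecC
import Pool.Agent.Lib.MP_391708_nt.X.M4

/-!
# THEOREM X+ (MP_391708), part MT: the main term

This is `X/SpecMT.lean` with the parameters of `XP/Defs.lean` (`T`, `P`, `M` free in a box) and a new lower bound in XXL, FMT.
Form of a module: file `XP/MT/XXX.lean`, `import Pool.Agent.Lib.MP_391708_nt.XP.SpecMT`, namespace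
`Pool.Agent.Lib.MP391708.XPM`, own lemmas in `XXXM`, `theorem specXXX (hYYY : SpecYYY) .. : SpecXXX` (the
hypotheses are the Specs named in brackets, in this order).  START FROM THE FILE `X/MT/XXX.lean`.

Every statement is of the form `EV Φ`: `Φ` holds for all contexts `(p, B, U, b, y)` of `SpecMT`, for suitable
exponents and `N` large.  `EV.and`, `EV.mono`, `EV.of_all` combine them: never unfold `EV` if you can avoid it.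
Write `ℓ = log N`, `K' = K/N(y)`.
-/

set_option autoImplicit false

namespace Pool.Agent.Lib.MP391708.XPM

open Finset Filter Topology Pool.Agent.Lib.MP391708.MR
open Pool.Agent.Lib.MP391708.X (ChiG hk Dist Fam rgh VP Ix psi ix1 UOK lc On)
open Pool.Agent.Lib.MP391708.XP
open Pool.Agent.Lib.MP391708.XL (gg VQ VS PS)
open scoped ComplexConjugate

/-- the data of a context: exponents, the box, the set of indices, the line, the outer factor -/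
structure Cx (cw aU aQ aF ch δ cP cT cB N T P M B : ℝ) (U : Finset Ix) (b : ℕ) (y : Gi) : Prop where
  box : Box δ cP cT cB N T P M B
  ok : UOK (Real.log N ^ aQ) (Real.log N ^ aF * (N / B)) (Real.log N ^ aU) U
  b1 : B < b
  b2 : (b : ℝ) ≤ 2 * B
  y1 : prim y
  y2 : (nm y : ℝ) ≤ Real.log N ^ (cP / 2)
  y3 : ∀ π : Gi, Prime π → π ∣ y → Real.log N ^ cw < (nm π : ℝ) ∧ Real.log N ^ aQ < (nm π : ℝ)

/-- `Φ` holds in all contexts -/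
def EV (Φ : Par → ℝ → Finset Ix → ℕ → Gi → Prop) : Prop := ∀ cw aU aQ aF : ℝ, 1 ≤ cw → 2 * aQ ≤ cw → 1 ≤ aU →
  1 ≤ aQ → 1 ≤ aF → ∃ ch0 δ0 : ℝ, 0 < δ0 ∧ ∀ ch : ℝ, ch0 ≤ ch → ∀ δ : ℝ, 0 < δ → δ ≤ δ0 →
  ∃ cP0 : ℝ, ∀ cP : ℝ, cP0 ≤ cP → ∃ cT0 : ℝ, ∀ cT : ℝ, cT0 ≤ cT → ∃ cB0 : ℝ, ∀ cB : ℝ, cB0 ≤ cB →
  ∀ᶠ N : ℝ in atTop, ∀ (T P M B : ℝ) (U : Finset Ix) (b : ℕ) (y : Gi),
    Cx cw aU aQ aF ch δ cP cT cB N T P M B U b y → Φ (par N T P M ch cw) B U b y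

lemma EV.mono {Φ Ψ : Par → ℝ → Finset Ix → ℕ → Gi → Prop} (h : EV Φ)
    (hi : ∀ p B U b y, Φ p B U b y → Ψ p B U b y) : EV Ψ := by
  intro cw aU aQ aF h0 h1 h2 h3 h4
  obtain ⟨ch0, δ0, hδ0, h5⟩ := h cw aU aQ aF h0 h1 h2 h3 h4
  refine ⟨ch0, δ0, hδ0, fun ch hch δ hδ hδ2 => ?_⟩
  obtain ⟨cP0, h6⟩ := h5 ch hch δ hδ hδ2
  refine ⟨cP0, fun cP hcP => ?_⟩
  obtain ⟨cT0, h7⟩ := h6 cP hcP
  refine ⟨cT0, fun cT hcT => ?_⟩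
  obtain ⟨cB0, h8⟩ := h7 cT hcT
  refine ⟨cB0, fun cB hcB => ?_⟩
  filter_upwards [h8 cB hcB] with N hN T P M B U b y hc
  exact hi _ _ _ _ _ (hN T P M B U b y hc)

lemma EV.and {Φ Ψ : Par → ℝ → Finset Ix → ℕ → Gi → Prop} (h : EV Φ) (h' : EV Ψ) :
    EV (fun p B U b y => Φ p B U b y ∧ Ψ p B U b y) := by
  intro cw aU aQ aF h0 h1 h2 h3 h4
  obtain ⟨ch0, δ0, hδ0, h5⟩ := h cw aU aQ aF h0 h1 h2 h3 h4
  obtain ⟨ch0', δ0', hδ0', h5'⟩ := h' cw aU aQ aF h0 h1 h2 h3 h4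
  refine ⟨max ch0 ch0', min δ0 δ0', lt_min hδ0 hδ0', fun ch hch δ hδ hδ2 => ?_⟩
  obtain ⟨cP0, h6⟩ := h5 ch ((le_max_left _ _).trans hch) δ hδ (hδ2.trans (min_le_left _ _))
  obtain ⟨cP0', h6'⟩ := h5' ch ((le_max_right _ _).trans hch) δ hδ (hδ2.trans (min_le_right _ _))
  refine ⟨max cP0 cP0', fun cP hcP => ?_⟩
  obtain ⟨cT0, h7⟩ := h6 cP ((le_max_left _ _).trans hcP)
  obtain ⟨cT0', h7'⟩ := h6' cP ((le_max_right _ _).trans hcP)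
  refine ⟨max cT0 cT0', fun cT hcT => ?_⟩
  obtain ⟨cB0, h8⟩ := h7 cT ((le_max_left _ _).trans hcT)
  obtain ⟨cB0', h8'⟩ := h7' cT ((le_max_right _ _).trans hcT)
  refine ⟨max cB0 cB0', fun cB hcB => ?_⟩
  filter_upwards [h8 cB ((le_max_left _ _).trans hcB), h8' cB ((le_max_right _ _).trans hcB)] with
    N hN hN' T P M B U b y hc
  exact ⟨hN T P M B U b y hc, hN' T P M B U b y hc⟩

lemma EV.of_all {Φ : Par → ℝ → Finset Ix → ℕ → Gi → Prop} (h : ∀ p B U b y, Φ p B U b y) : EV Φ := by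
  intro cw aU aQ aF _ _ _ _ _
  refine ⟨0, 1, one_pos, fun ch _ δ _ _ => ⟨0, fun cP _ => ⟨0, fun cT _ => ⟨0, fun cB _ => ?_⟩⟩⟩⟩
  exact Filter.Eventually.of_forall fun N T P M B U b y _ => h _ _ _ _ _

/-- the indices of a context -/
lemma EV.uok : EV (fun _ _ U _ _ => ix1 ∈ U ∧ ∀ i ∈ U, 1 ≤ i.1 ∧ ChiG (i.1 : Gi) i.2.1 ∧
    psi i ⟨0, 1⟩ = 1 ∧ (i ≠ ix1 → Dist i.2.1 (fun _ => 1) i.2.2 0)) := by
  intro cw aU aQ aF _ _ _ _ _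
  refine ⟨0, 1, one_pos, fun ch _ δ _ _ => ⟨0, fun cP _ => ⟨0, fun cT _ => ⟨0, fun cB _ => ?_⟩⟩⟩⟩
  exact Filter.Eventually.of_forall fun N T P M B U b y hc =>
    ⟨hc.ok.one, fun i hi => ⟨(hc.ok.ch i hi).1, (hc.ok.ch i hi).2.2, hc.ok.adm i hi,
      fun hne => hc.ok.dif i hi ix1 hc.ok.one hne⟩⟩

/-- `EV` is what `SpecMT` needs -/
lemma EV.specMT {c : ℝ} (hc : 0 < c) (h : EV (fun p _ U b y =>
    c * (VS b (PS p.w) / VP p.w) * (p.N / (Real.log p.N ^ 3 * Real.log p.P * nm y)) ≤ (sy p y b (Kap p U)).re)) :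
    SpecMT := by
  refine ⟨c, hc, ?_⟩
  intro cw aU aQ aF h0 h1 h2 h3 h4
  obtain ⟨ch0, δ0, hδ0, h5⟩ := h cw aU aQ aF h0 h1 h2 h3 h4
  refine ⟨ch0, δ0, hδ0, fun ch hch δ hδ hδ2 => ?_⟩
  obtain ⟨cP0, h6⟩ := h5 ch hch δ hδ hδ2
  refine ⟨cP0, fun cP hcP => ?_⟩
  obtain ⟨cT0, h7⟩ := h6 cP hcP
  refine ⟨cT0, fun cT hcT => ?_⟩
  obtain ⟨cB0, h8⟩ := h7 cT hcT
  refine ⟨cB0, fun cB hcB => ?_⟩
  filter_upwards [h8 cB hcB] with N hN T P M B hB U hU b hb1 hb2 y hy1 hy2 hy3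
  exact hN T P M B U b y ⟨hB, hU, hb1, hb2, hy1, hy2, hy3⟩

/-! ## Definitions -/

/-- the cells of `z₁` -/
noncomputable def I1 (p : Par) (y : Gi) : Finset ℕ := VV p.h (p.K / nm y) (2 * (p.K / nm y))

/-- the sum of `ψ` over the `z₁` in the cell `u` -/
noncomputable def S1 (p : Par) (y : Gi) (i : Ix) (u : ℕ) : ℂ :=
  ∑ z ∈ cell p.h (p.K / nm y) (2 * (p.K / nm y)) u, psi i z

/-- the radius `√(N(y) N(π) e^(s/h))`, `s = u + v4 + v2` -/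
noncomputable def rad (p : Par) (y π : Gi) (s : ℕ) : ℝ :=
  Real.sqrt ((nm y : ℝ) * nm π * Real.exp (s / p.h))

/-- the local factor of `ψ_i` on the line, times the sieve product -/
noncomputable def GG (p : Par) (i : Ix) (b : ℕ) : ℂ := ((VQ i.1 b (PS p.w) : ℝ) : ℂ) * gg i.2.1 i.1 b

/-- the trilinear sum over the cells -/
noncomputable def TT (p : Par) (y π : Gi) (b : ℕ) (i : Ix) : ℂ :=
  ∑ u ∈ I1 p y, ∑ v4 ∈ I4 p, ∑ v2 ∈ I2 p, S1 p y i u * S4 p i v4 * S2 p i v2 *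
    (((1 / rad p y π (u + v4 + v2) : ℝ) : ℂ) *
      Complex.exp (-(Complex.I * i.2.2 * b / (rad p y π (u + v4 + v2) : ℝ))))

/-- the size of the main term for one `π₃`, without the sieve factor -/
noncomputable def Z0 (p : Par) (y : Gi) : ℝ :=
  p.K / nm y * p.M4 * p.M2 / (p.N * Real.log p.N ^ 3)

/-- the size of the main term -/
noncomputable def XX (p : Par) (y : Gi) (b : ℕ) : ℝ :=
  VS b (PS p.w) / VP p.w * (GP p.P (2 * p.P)).card * Z0 p y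

open scoped Classical in
/-- the line sum of `conj ψ_i` over the rough elements of a lattice cell -/
noncomputable def LL (p : Par) (i : Ix) (ω : Gi) (b j : ℕ) : ℂ :=
  ∑ z ∈ (disc (p.N * p.T)).filter (On ω b),
    (if z ∈ lc p.h j ∧ rgh p.w z then conj (psi i z) else 0)

/-! ## Sizes -/

/-- elementary facts (all of them for `N` large; `n1 = N(y)`) -/
structure Siz (p : Par) (U : Finset Ix) (b : ℕ) (y : Gi) : Prop where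
  N1 : 1000000 ≤ p.N
  l1 : 100 ≤ Real.log p.N
  h1 : 100 ≤ p.h
  h2 : p.h ^ 2 ≤ p.N / 10
  w1 : 1 ≤ p.w
  P1 : 100 ≤ p.P
  T1 : 1000 * p.P ≤ p.T
  b1 : 1 ≤ b
  b2 : (b : ℝ) ^ 2 ≤ 8 * p.N
  ny : 1 ≤ nm y
  K1 : p.N ^ (9 / 10 : ℝ) ≤ p.K / nm y
  K2 : p.K / nm y ≤ p.N
  M41 : p.N ^ (1 / 3 : ℝ) ≤ p.M4
  M42 : 2 * p.M4 ≤ p.N
  M21 : p.N ^ (1 / 3 : ℝ) ≤ p.M2
  M22 : 2 * p.M2 ≤ p.N
  nT : 4 * p.M4 * p.M2 * Real.exp (2 / p.h) ≤ p.N * p.T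
  prod : 16 * p.K * p.P * p.M4 * p.M2 = p.N ^ 2
  /-- the outer point `ω = y z₁ π₃` -/
  om : ∀ π ∈ GP p.P (2 * p.P), ∀ z ∈ GP (p.K / nm y) (2 * (p.K / nm y)),
    prim (y * z * π) ∧ rgh p.w (y * z * π) ∧ (∀ i ∈ U, Nat.Coprime (nm (y * z * π)) i.1) ∧
    (nm (y * z * π) : ℝ) = nm y * nm z * nm π ∧ 0 < nm (y * z * π)
  /-- `z₁` and its cell -/
  ce : ∀ z ∈ GP (p.K / nm y) (2 * (p.K / nm y)), ⌊p.h * Real.log (nm z)⌋₊ ∈ I1 p y ∧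
    z ∈ cell p.h (p.K / nm y) (2 * (p.K / nm y)) ⌊p.h * Real.log (nm z)⌋₊ ∧
    Real.exp ((⌊p.h * Real.log (nm z)⌋₊ : ℝ) / p.h) ≤ nm z ∧
    (nm z : ℝ) ≤ Real.exp ((⌊p.h * Real.log (nm z)⌋₊ : ℝ) / p.h) * Real.exp (1 / p.h)
  /-- the radii -/
  ra : ∀ π ∈ GP p.P (2 * p.P), ∀ u ∈ I1 p y, ∀ v4 ∈ I4 p, ∀ v2 ∈ I2 p,
    p.N / 8 ≤ rad p y π (u + v4 + v2) ∧ rad p y π (u + v4 + v2) ≤ 2 * p.N
  /-- the lattice cells -/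
  jj : ∀ v4 ∈ I4 p, ∀ v2 ∈ I2 p, p.N / 20 ≤ Real.exp (((v4 + v2 : ℕ) : ℝ) / p.h) ∧
    Real.exp ((((v4 + v2 : ℕ) : ℝ) + 1) / p.h) ≤ p.N * p.T
  /-- the numbers of cells -/
  c1 : ((I1 p y).card : ℝ) ≤ p.h
  c4 : ((I4 p).card : ℝ) ≤ p.h
  c2 : ((I2 p).card : ℝ) ≤ p.h

/-- SIZ (350 lines, strong).  Proof.  `ℓ^cP ≤ P ≤ ℓ^(2cP)`, `P ℓ^cT ≤ T ≤ N^δ`, `h = ℓ^ch`, `w = ℓ^cw`, `K = N/T`, `N^0.35 ≤ M4 ≤ N^0.45`,
`M2 = N T/(16 P M4)`, `N(y) ≤ ℓ^(cP/2)`; take `ch0 = 1`, `δ0 = 1/100`, `cP0 = max(2 cw, 2 aQ) + 2` (so that `w, Q < P`, `Q = ℓ^aQ`), `cT0 = 1`, `cB0 = 1`.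
Powers of `ℓ` are `≤ N^(1/100)` (`isLittleO_log_rpow_atTop`, or `Real.log` bounds).  `K/N(y) ≥ N^0.98`, `N^0.54 ≤ M2 ≤ N^0.67`.  `b ≥ 1` since
`b > B ≥ 1`; `b² ≤ 4B² ≤ 8N`.
`om`: `z`, `π` are Gaussian primes whose norms are primes `> K' > 2P` and in `(P, 2P]`; all Gaussian primes dividing `y` have norm
`> w, Q` and `≤ N(y) ≤ ℓ^(cP/2) < P`.  The norm is multiplicative.  `prim`: a rational prime `q` dividing `y z π`: a Gaussian prime over `q`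
and its conjugate divide `y z π`, comparing norms both divide the same factor: `y` (then `q ∣ y`, impossible), or `z` or `π` (impossible, the norm
of `z` is a prime `≠ q²`; `z` prime of norm `q` is not divisible by `z̄`, since `re, im > 0` and `re ≠ im`, `q ≡ 1 mod 4`).  (Or: `gcd(a, b) = 1` for norms
gives: product of primitive elements with coprime norms is primitive; `z` is primitive since its norm is a prime.)  `rgh`: a Gaussian prime dividing `yzπ` divides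
`y`, `z` or `π`; norms `> w`.  Coprime to `i.1 ≤ Q`: a prime `q` dividing `N(yzπ)` and `i.1`: some Gaussian prime over `q` divides `y z π`, of
norm `q` or `q²`; if it divides `z` or `π` then `q = N > Q`; if it divides `y`: its norm is `> w ≥ Q²`, so `q > Q`.
(`cw ≥ 2 aQ`; `i.1 ≤ Q < q` contradicts `q ∣ i.1`, `i.1 ≥ 1`.)
`ce`: monotonicity of `⌊h log ·⌋`, `N(z) ≥ 1`, `v ≤ h log N(z) < v + 1`.
`ra`: `u/h ∈ [log K' - 1/h, log 2K']` etc., so `N(y) N(π) e^((u+v4+v2)/h) ∈ [K P M4 M2 e^(-3/h), 16 K P M4 M2] = [N² e^(-3/h)/16, N²]`.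
`jj`: `e^(v4/h) ≥ M4 e^(-1/h)`, `M4 M2 = N T/(16 P) ≥ 60 N`; `e^((v4+v2+1)/h) ≤ 4 M4 M2 e^(1/h)`.
Cells: `#VV h M 2M ≤ h log 2 + 2 ≤ h`. -/
def SpecSIZ : Prop := EV (fun p _ U b y => Siz p U b y)

/-- FRQ (100 lines).  The phase is nearly constant on a cell: `|k| b ≤ δ h N`.  Proof: `|k| ≤ ℓ^aF N/B`, `b ≤ 2B`, so
`|k| b ≤ 2 ℓ^aF N ≤ δ ℓ^ch N` for `ch ≥ ch0 = aF + 1`, `ℓ ≥ 2/δ`.  The second claim: `|k| b³ ≤ 2 ℓ^aF N · 4 B² ≤ δ N³`. -/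
def SpecFRQ : Prop := ∀ δ : ℝ, 0 < δ → EV (fun p _ U b _ => ∀ i ∈ U,
  |(i.2.2 : ℝ)| * b ≤ δ * p.h * p.N ∧ |(i.2.2 : ℝ)| * (b : ℝ) ^ 3 ≤ δ * p.N ^ 3)

/-- HGT (40 lines).  `h` is large (`ch0 = 1`, `h = ℓ^ch ≥ ℓ`). -/
def SpecHGT : Prop := ∀ κ : ℝ, EV (fun p _ _ _ _ => κ ≤ p.h)

/-- TBG (120 lines, from XL.SpecLSM).  There are many points on a line: `Q (w+1)^(16u+34)` is small against `(T/(P h)) V_b`.
Proof.  `Q = ℓ^aQ`, `w = ℓ^cw`, `h = ℓ^ch`, `T/P ≥ ℓ^cT`: choose `cT0 = ch + aQ + cw (16u + 35) + 10`; `VS b (PS w) ≥ c/log(w+1)^4 ≥ 1/ℓ`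
(LSM, last claim), `N(y) ≥ 1`. -/
def SpecTBG : Prop := ∀ (u : ℕ) (δ : ℝ), 0 < δ → EV (fun p _ U b _ => ∀ i ∈ U,
  (i.1 : ℝ) * (p.w + 1) ^ (16 * u + 34) ≤ δ * (p.T / (p.P * p.h)) * VS b (PS p.w))

/-! ## Inputs, in the form of the contexts -/

/-- CNT (150 lines, from `SW.SpecSWA` or `QPA` prime number theorem in progressions modulo 4).  Lower bound for the number of
Gaussian primes in `(X, 2X]`.  Proof.  Every prime `p ≡ 1 mod 4` is the norm of two elements of `GP` (MR/PG.lean or MR/Basic), and the number of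
primes `≡ 1 mod 4` in `(X, 2X]` is `(1/2 + o(1)) X/log X` (`SW/Main.lean`: SWA with `q = 4`, and the prime number theorem `QPA.specPNT`; or
Chebyshev). -/
def SpecCNT : Prop := ∃ c : ℝ, 0 < c ∧ ∀ᶠ X : ℝ in atTop, c * X / Real.log X ≤ ((GP X (2 * X)).card : ℝ)

/-- CEL (helper63's module gives it for general `M`): thin Halász–Montgomery for the three cells, in a context.
`S2` has the factor `4`. -/
def SpecCE3 : Prop := ∃ C : ℝ, 0 < C ∧ EV (fun p _ U _ y =>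
  (∀ u ∈ I1 p y, ∑ i ∈ U, ‖S1 p y i u‖ ^ 2 ≤ (C * (p.K / nm y) / (p.h * Real.log p.N)) ^ 2) ∧
  (∀ v ∈ I4 p, ∑ i ∈ U, ‖S4 p i v‖ ^ 2 ≤ (C * p.M4 / (p.h * Real.log p.N)) ^ 2) ∧
  ∀ v ∈ I2 p, ∑ i ∈ U, ‖S2 p i v‖ ^ 2 ≤ (C * p.M2 / (p.h * Real.log p.N)) ^ 2)

/-- RRA (200 lines, from X.SpecRG0, SpecSIZ).  The number of rough elements of a lattice cell.
Proof.  RG0 with `A = cw + 1`, `x = N² `, `y = ⌈e^(j/h)⌉ - 1`, `y' = ⌈e^((j+1)/h)⌉ - 1` (norms are integers, so `lc h j` is exactly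
`ann y y'`), `y' - y = e^(j/h)(e^(1/h) - 1) + O(1)`, `e^(1/h) - 1 = (1/h)(1 + O(1/h))`, `e^(j/h) ≥ N/20` and `≤ N T ≤ N²`, the error `x^(1-c)` must be compared
with `e^(j/h)/h`: use RG0 with `x = 2 e^((j+1)/h)` (so `x^(1-c) ≤ δ e^(j/h) VP/h`).  A crude bound is enough:
`VP w ≥ ∏_{p ≤ w} (1 - 1/p)² ≥ ∏_{2 ≤ m ≤ w} (1 - 1/m)² ≥ w^(-2)` (at most two elements of `PI w` over each rational prime), or
`VP w ≥ 2^(-#{N(π) = 2}) ..`. -/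
def SpecRRA : Prop := ∀ δ : ℝ, 0 < δ → EV (fun p _ _ _ _ => 0 < VP p.w ∧ VP p.w ≤ 1 ∧
  ∀ v4 ∈ I4 p, ∀ v2 ∈ I2 p, |RR p (v4 + v2) * p.h /
    (Real.pi * Real.exp (((v4 + v2 : ℕ) : ℝ) / p.h) * VP p.w) - 1| ≤ δ)

/-- PSM (150 lines, from PH.SpecPHX, SpecSIZ).  The initial sums of `S4` are small for every nontrivial `ψ`.
Proof.  The union of the cells `v < m`, `v ∈ I4`, is `{π ∈ GP M4 2M4 : N(π) < e^(m/h)}`, that is `GP M4 y'` with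
`y' = min(2 M4, ⌈e^(m/h)⌉ - 1)` (empty if `y' ≤ M4`).  PHX with `A = max(aQ, 2) + aF`, `δ₀ = 1/3`, `ε = δ/4`: `f = i.1 ≤ ℓ^aQ`,
`|k| ≤ ℓ^aF N/B ≤ N²`, nontrivial: `UOK.dif` with `ix1` (`psi ix1 = 1`: `ix1 = (1, 1, 0)`, `Dist` gives `k ≠ 0` or `χ z ≠ 0, χ z ≠ 1`), `hk χ k i = 1` is `adm`.
`y' ≤ 2 M4`, `log y' ≥ ℓ/2`. -/
def SpecPSM : Prop := ∀ δ : ℝ, 0 < δ → EV (fun p _ U _ _ => ∀ i ∈ U, i ≠ ix1 → ∀ m : ℕ,
  ‖∑ v ∈ (I4 p).filter (fun v => v < m), S4 p i v‖ ≤ δ * p.M4 / Real.log p.N)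

/-- LIN (200 lines, from XL.SpecLSM, SIZ, FRQ, TBG, HGT).  The line sums.
Proof.  LSM with `u` so large that `C e^(-u) ≤ δ/8`, `ω = y z π`, `r = rad p y π (⌊h log N(z)⌋ + v4 + v2)`, `j = v4 + v2`, `D = N T`.  Conditions:
SIZ (`r ≥ N/8 ≥ 1000`, `b² ≤ 8N ≤ 100 r`, `h² ≤ r`; `N(ω) e^(j/h) = N(y) N(z) N(π) e^(j/h) ∈ [r², r² e^(1/h)]`).  Errors: `C/h ≤ δ/8` (HGT),
`C |k| b/(h r) ≤ 8 C δ'` and `C |k| (b/r)³ ≤ 512 C δ'` (FRQ); the remainder by TBG: `r/(h N(ω)) ≥ (N/8)/(h · 4 K P) = T/(32 h P)`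
(`N(ω) ≤ N(y) · 2K' · 2P = 4 K P`). -/
def SpecLIN : Prop := ∀ δ : ℝ, 0 < δ → EV (fun p _ U b y => ∀ i ∈ U, ∀ π ∈ GP p.P (2 * p.P),
  ∀ z ∈ GP (p.K / nm y) (2 * (p.K / nm y)), ∀ v4 ∈ I4 p, ∀ v2 ∈ I2 p,
    ‖LL p i (y * z * π) b (v4 + v2) -
      ((rad p y π (⌊p.h * Real.log (nm z)⌋₊ + v4 + v2) / (2 * p.h * nm (y * z * π)) : ℝ) : ℂ) *
        GG p i b * psi i (y * z * π) *
        Complex.exp (-(Complex.I * i.2.2 * b / (rad p y π (⌊p.h * Real.log (nm z)⌋₊ + v4 + v2) : ℝ)))‖ ≤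
      δ * (rad p y π (⌊p.h * Real.log (nm z)⌋₊ + v4 + v2) / (p.h * nm (y * z * π))) * VS b (PS p.w))

/-! ## The reduction -/

/-- EXC (150 lines).  Exchange of the sums.  Pure algebra: unfold `sy`, `ls`, `Kap`, `kap`; `y * z₁ * π` is the point of the line;
`2 * p.K / nm y = 2 * (p.K / nm y)`. -/
def SpecEXC : Prop := ∀ (p : Par) (U : Finset Ix) (b : ℕ) (y : Gi),
  sy p y b (Kap p U) = ∑ π ∈ GP p.P (2 * p.P), ∑ z ∈ GP (p.K / nm y) (2 * (p.K / nm y)),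
    ∑ v4 ∈ I4 p, ∑ v2 ∈ I2 p, ∑ i ∈ U, cc p i v4 v2 * LL p i (y * z * π) b (v4 + v2)

/-- CCB (120 lines, from SpecCE3, SpecRRA).  The coefficients, log-free.
Proof.  `‖cc‖ = ‖S4‖ ‖S2‖/RR`, Cauchy–Schwarz over `i ∈ U` with CE3, `RR ≥ (1/2) π e^(j/h) VP/h` (RRA with `δ = 1/2`). -/
def SpecCCB : Prop := ∃ C : ℝ, 0 < C ∧ EV (fun p _ U _ _ => ∀ v4 ∈ I4 p, ∀ v2 ∈ I2 p,
  ∑ i ∈ U, ‖S4 p i v4‖ * ‖S2 p i v2‖ ≤ C * p.M4 * p.M2 / (p.h * Real.log p.N) ^ 2 ∧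
  ∑ i ∈ U, ‖cc p i v4 v2‖ ≤ C * p.M4 * p.M2 / (p.h * Real.log p.N ^ 2 *
    (Real.exp (((v4 + v2 : ℕ) : ℝ) / p.h) * VP p.w)))

/-- RED (350 lines, strong; from EXC, LIN, CCB, RRA, SIZ, CE3, HGT, XL.SpecLSM, XL.SpecCHB).  The reduction to the trilinear sums.
Proof.  EXC, and `|cc| |LL - ..| `: the error of LIN, summed: for each `(π, z, v4, v2)`: `∑_i ‖cc‖ δ' (r/(h N(ω))) V_b
≤ C δ' M4 M2 r V_b/(h² ℓ² N(ω) e^(j/h) VP)`, and `N(ω) e^(j/h) ≥ r²`, `r ≥ N/8`: `≤ 8 C δ' M4 M2 V_b/(h² ℓ² VP N)`.  There are at most `h²` pairs `(v4, v2)`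
and `≤ C K'/ℓ` elements `z` (CE3 for `i = ix1 ∈ U`: `S1 p y ix1 u` is the number of elements of the cell, `≤ C K'/(hℓ)`, and there are `≤ h`
cells, SIZ.ce and c1), so the total is `≤ C' δ' XX`.
Main terms: `cc · r/(2h N(ω)) = S4 S2 · r/(2h N(ω) RR(j))`, and `N(ω) e^(j/h) = r² (1 + O(1/h))`, `RR(j) = (π/h) e^(j/h) VP (1 + O(δ'))` (RRA), so the
coefficient is `(1/(2π VP)) (1/r) (1 + O(δ' + 1/h))` (`h ≥ 1/δ'`: this is SpecHGT); the error is bounded in the same way with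
`∑_i ‖S4‖‖S2‖` (CCB), `‖GG‖ ≤ VS` (LSM (C)), `‖psi‖ ≤ 1` (XL.SpecCHB: `‖χ‖ ≤ 1`; `‖xi‖ ≤ 1`).  Finally `psi i (y z π) = psi i y psi i z psi i π`, and the sum over `z` is the sum over
the cells `u ∈ I1` of `S1` (SIZ.ce: `z` is in exactly one cell), `rad` depends on the cell only. -/
def SpecRED : Prop := ∀ δ : ℝ, 0 < δ → EV (fun p _ U b y =>
  ‖sy p y b (Kap p U) - ((1 / (2 * Real.pi * VP p.w) : ℝ) : ℂ) * ∑ π ∈ GP p.P (2 * p.P), ∑ i ∈ U,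
    psi i y * psi i π * (GG p i b * TT p y π b i)‖ ≤ δ * XX p y b)

/-! ## The trilinear sums -/

/-- BIL (proved in X/M4.lean by helper6): the bounded analysis.  `H θ β s = β^s e^(-i θ β^s)`. -/
def SpecBIL : Prop := ∀ C c : ℝ, 1 ≤ C → 0 < c → c ≤ 1 → ∀ (β : ℝ) (n : ℕ), 0 < β → β < 1 → 1 ≤ n →
  1 ≤ C * n * (1 - β) → c ≤ β ^ n → ∀ (ι : Type) (Ψ : Finset ι) (θ : ι → ℝ) (g : ι → ℂ)
  (a x y : ι → ℕ → ℂ) (A X Y ε T₀ : ℝ), 0 ≤ A → 0 ≤ X → 0 ≤ Y → 0 ≤ ε → 1 ≤ T₀ →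
  (∀ i ∈ Ψ, |θ i| * (1 - β) ≤ 1) → (∀ i ∈ Ψ, ‖g i‖ ≤ 1) →
  (∀ u, u < n → ∑ i ∈ Ψ, ‖a i u‖ ^ 2 ≤ A ^ 2) → (∀ v, v < n → ∑ i ∈ Ψ, ‖y i v‖ ^ 2 ≤ Y ^ 2) →
  (∀ i ∈ Ψ, ∀ v, v < n → ‖x i v‖ ≤ X) →
  (∀ i ∈ Ψ, ∀ m, m ≤ n → ‖∑ v ∈ range m, x i v‖ ≤ ε * X * n) →
    ∑ i ∈ Ψ, ‖g i * ∑ u ∈ range n, ∑ v ∈ range n, ∑ j ∈ range n,
      a i u * x i v * y i j * Pool.Agent.Lib.MP391708.X.M4.H (θ i) β (u + v + j)‖ ≤
      (3 * T₀ * ε + 8 * (C / c ^ 2) * T₀ ^ (-(1 / 4) : ℝ)) * n ^ 3 * (A * X * Y)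

open scoped Classical in
/-- BLX (300 lines, strong; from BIL, CE3, PSM, SIZ, FRQ, XL.SpecLSM: (C) for `‖GG‖ ≤ VS`).  The nontrivial characters contribute little.
Proof.  Fix `π`.  `u₀, a₀, b₀` = the least elements of `I1, I4, I2` (`VV = Icc ..`), `n = ⌊h⌋₊` (all three have at most `n` elements by SIZ, c1 c4 c2), extend
`S1, S4, S2` by zero outside.  `β = e^(-1/(2h))`: `1 - β ≥ 1/(4h)`, so `1 ≤ 8 n (1 - β)` (`C = 8`), `β^n ≥ e^(-1/2) ≥ 1/2 = c`.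
`1/rad(u + v4 + v2) = β^(..)/r₀`, `r₀ = rad p y π (u₀ + a₀ + b₀) ≥ N/8`, and `k b/rad = θ β^(..)`, `θ = k b/r₀`, `|θ| (1 - β) ≤ |k| b · 8/(2 h N) ≤ 1` (FRQ with
`δ = 1/4`).  `g = GG/VS`.  `A, X, Y` from CE3 (`‖S4‖² ≤ ∑`), `ε X n`: PSM gives `δ' M4/ℓ ≤ ε X n`, `X = C M4/(hℓ)`, `n ≥ h/2`: `ε = 2 δ'/C`.
BIL: `∑ ‖GG TT‖ ≤ (VS/r₀) (3 T₀ ε + 256 T₀^(-1/4)) n³ A X Y ≤ (8 C³)(3 T₀ ε + 256 T₀^(-1/4)) VS Z0`.  Choose first `T₀`, then `δ'`. -/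
def SpecBLX : Prop := ∀ δ : ℝ, 0 < δ → EV (fun p _ U b y => ∀ π ∈ GP p.P (2 * p.P),
  ∑ i ∈ U.filter (fun i => i ≠ ix1), ‖GG p i b * TT p y π b i‖ ≤ δ * VS b (PS p.w) * Z0 p y)

/-- MNX (150 lines, from CNT, SIZ, XL.SpecLSM: (D)).  The trivial character.
Proof.  `psi ix1 = 1`, `gg = 1`, `VQ 1 = VS`, `k = 0`: `TT` is the sum of `#cell(u) #cell(v4) 4 #cell(v2)/rad ≥ ../(2N)`, all terms `≥ 0`; the cells partition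
`GP M (2M)` (SIZ.ce for `z₁`, the same monotonicity for `M4`, `M2`), CNT for `K'`, `M4`, `M2` (all `≥ N^(1/3)`, `log ≤ ℓ`). -/
def SpecMNX : Prop := ∃ c : ℝ, 0 < c ∧ EV (fun p _ _ b y => ∀ π ∈ GP p.P (2 * p.P),
  (GG p ix1 b * TT p y π b ix1).im = 0 ∧
  c * VS b (PS p.w) * Z0 p y ≤ (GG p ix1 b * TT p y π b ix1).re)

/-- XXL (120 lines, from CNT, SIZ, RRA, XL.SpecLSM: (E)).  The size of the main term.
Proof.  `16 K P M4 M2 = N²`, `#GP P 2P ≥ c P/log P` (CNT: `P ≥ ℓ^cP → ∞` uniformly), `VP > 0` (RRA), `VS > 0` (E):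
`XX = VS/VP · #GP · K' M4 M2/(N ℓ³) ≥ (c/16) (VS/VP) N/(N(y) ℓ³ log P)`. -/
def SpecXXL : Prop := ∃ c : ℝ, 0 < c ∧ EV (fun p _ _ b y =>
  c * (VS b (PS p.w) / VP p.w) * (p.N / (Real.log p.N ^ 3 * Real.log p.P * nm y)) ≤ XX p y b ∧ 0 ≤ XX p y b)

/-- FMT (100 lines, from RED, BLX, MNX, XXL, RRA, XL.SpecCHB; `EV.uok`).  The conclusion.  Proof.  `(1/(2π VP)) ∑_π (c - δ) VS Z0 - δ XX ≥
(c/(2π) - 2δ) XX`; `psi ix1 = 1`, `ix1 ∈ U` (`EV.uok`), `‖psi i y psi i π‖ ≤ 1` (XL.SpecCHB).  Then SpecMT is `EV.specMT`. -/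
def SpecFMT : Prop := ∃ c : ℝ, 0 < c ∧ EV (fun p _ U b y =>
  c * (VS b (PS p.w) / VP p.w) * (p.N / (Real.log p.N ^ 3 * Real.log p.P * nm y)) ≤ (sy p y b (Kap p U)).re)

end Pool.Agent.Lib.MP391708.XPM
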